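import Pool.Agent.Helper11.PC.Defs

/-! # PC GEO: the geometric series -/

namespace Pool.Agent.Helper49.PC

universe u v w

open MonoidAlgebra Pool.Agent.Helper28.Para Pool.Agent.Helper11.PC

/-- The geometric series. -/
noncomputable def zz {G : Type u} [Group G] (y : G → ℚ)
    (hfin : ∀ x : G, {l : List G | (∀ t ∈ l, y t ≠ 0) ∧ l.prod = x}.Finite) (x : G) : ℚ :=
  ∑ l ∈ (hfin x).toFinset, (l.map y).prod

section

variable {G : Type u} [Group G] (y : G → ℚ)
  (hfin : ∀ x : G, {l : List G | (∀ t ∈ l, y t ≠ 0) ∧ l.prod = x}.Finite)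

lemma zz_ne {x : G} (h : zz y hfin x ≠ 0) : ∃ l : List G, (∀ t ∈ l, y t ≠ 0) ∧ l.prod = x := by
  unfold zz at h
  obtain ⟨l, hl, -⟩ := Finset.exists_ne_zero_of_sum_ne_zero h
  exact ⟨l, (hfin x).mem_toFinset.mp hl⟩

/-- Splitting off the first entry. -/
lemma left_eq (x : G) :
    (Function.support fun a => y a * zz y hfin (a⁻¹ * x)).Finite ∧
    zz y hfin x = mono 1 1 x + ∑ᶠ a : G, y a * zz y hfin (a⁻¹ * x) := by
  classical
  set L := (hfin x).toFinset with hL
  set L1 := L.filter fun l => l ≠ [] with hL1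
  have memL : ∀ l, l ∈ L ↔ (∀ t ∈ l, y t ≠ 0) ∧ l.prod = x := fun l => (hfin x).mem_toFinset
  set H : Finset G := L1.image fun l => l.headD 1 with hH
  have hsub : (Function.support fun a => y a * zz y hfin (a⁻¹ * x)) ⊆ (H : Set G) := by
    intro a ha
    rw [Function.mem_support] at ha
    obtain ⟨l, hl, hp⟩ := zz_ne y hfin (right_ne_zero_of_mul ha)
    rw [Finset.mem_coe, hH, Finset.mem_image]
    refine ⟨a :: l, ?_, rfl⟩
    rw [hL1, Finset.mem_filter, memL]
    refine ⟨⟨?_, ?_⟩, List.cons_ne_nil _ _⟩
    · intro t ht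
      rcases List.mem_cons.mp ht with h | h
      · rw [h]; exact left_ne_zero_of_mul ha
      · exact hl t h
    · rw [List.prod_cons, hp, mul_inv_cancel_left]
  refine ⟨H.finite_toSet.subset hsub, ?_⟩
  rw [finsum_eq_sum_of_support_subset _ hsub]
  have e1 : zz y hfin x = ∑ l ∈ L.filter (fun l => ¬ l ≠ []), (l.map y).prod +
      ∑ l ∈ L1, (l.map y).prod := by
    unfold zz
    rw [add_comm]
    exact (Finset.sum_filter_add_sum_filter_not L _ _).symm
  have e2 : ∑ l ∈ L.filter (fun l => ¬ l ≠ []), (l.map y).prod = mono 1 1 x := by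
    unfold mono
    by_cases hx : x = 1
    · have : L.filter (fun l => ¬ l ≠ []) = {[]} := by
        ext l
        rw [Finset.mem_filter, memL, Finset.mem_singleton, not_not]
        constructor
        · exact fun h => h.2
        · rintro rfl
          simp [hx]
      rw [this, if_pos hx, Finset.sum_singleton]
      simp
    · have : L.filter (fun l => ¬ l ≠ []) = ∅ := by
        ext l
        rw [Finset.mem_filter, memL, not_not]
        constructor
        · rintro ⟨h, rfl⟩
          exact absurd h.2.symm hx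
        · intro h
          exact absurd h (Finset.notMem_empty _)
      rw [this, if_neg hx, Finset.sum_empty]
  rw [e1, e2]
  congr 1
  rw [← Finset.sum_fiberwise_of_maps_to (s := L1) (t := H) (g := fun l => l.headD 1)
    (fun l hl => Finset.mem_image_of_mem _ hl)]
  apply Finset.sum_congr rfl
  intro a ha
  have hya : y a ≠ 0 := by
    rw [hH, Finset.mem_image] at ha
    obtain ⟨l, hl, rfl⟩ := ha
    rw [hL1, Finset.mem_filter, memL] at hl
    cases l with
    | nil => exact absurd rfl hl.2
    | cons b l => exact hl.1.1 b List.mem_cons_self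
  unfold zz
  rw [Finset.mul_sum]
  refine Finset.sum_nbij' (fun l => l.tail) (fun l => a :: l) ?_ ?_ ?_ ?_ ?_
  · intro l hl
    rw [Finset.mem_filter, hL1, Finset.mem_filter, memL] at hl
    rw [Set.Finite.mem_toFinset]
    cases l with
    | nil => exact absurd rfl hl.1.2
    | cons b l =>
      have hb : b = a := hl.2
      refine ⟨fun t ht => hl.1.1.1 t (List.mem_cons_of_mem _ ht), ?_⟩
      have := hl.1.1.2
      rw [List.prod_cons, hb] at this
      rw [← this, inv_mul_cancel_left]
      rfl
  · intro l hl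
    rw [Set.Finite.mem_toFinset] at hl
    rw [Finset.mem_filter, hL1, Finset.mem_filter, memL]
    refine ⟨⟨⟨?_, ?_⟩, List.cons_ne_nil _ _⟩, rfl⟩
    · intro t ht
      rcases List.mem_cons.mp ht with h | h
      · rw [h]; exact hya
      · exact hl.1 t h
    · rw [List.prod_cons, hl.2, mul_inv_cancel_left]
  · intro l hl
    rw [Finset.mem_filter, hL1, Finset.mem_filter, memL] at hl
    cases l with
    | nil => exact absurd rfl hl.1.2
    | cons b l =>
      have hb : b = a := hl.2
      rw [hb]
      rfl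
  · intro l hl
    rfl
  · intro l hl
    rw [Finset.mem_filter, hL1, Finset.mem_filter, memL] at hl
    cases l with
    | nil => exact absurd rfl hl.1.2
    | cons b l =>
      have hb : b = a := hl.2
      rw [hb, List.map_cons, List.prod_cons]
      rfl

/-- Splitting off the last entry. -/
lemma right_eq (x : G) :
    (Function.support fun a => zz y hfin a * y (a⁻¹ * x)).Finite ∧
    zz y hfin x = mono 1 1 x + ∑ᶠ a : G, zz y hfin a * y (a⁻¹ * x) := by
  classical
  set L := (hfin x).toFinset with hL
  set L1 := L.filter fun l => l ≠ [] with hL1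
  have memL : ∀ l, l ∈ L ↔ (∀ t ∈ l, y t ≠ 0) ∧ l.prod = x := fun l => (hfin x).mem_toFinset
  set H : Finset G := L1.image fun l => l.dropLast.prod with hH
  have hsub : (Function.support fun a => zz y hfin a * y (a⁻¹ * x)) ⊆ (H : Set G) := by
    intro a ha
    rw [Function.mem_support] at ha
    obtain ⟨l, hl, hp⟩ := zz_ne y hfin (left_ne_zero_of_mul ha)
    rw [Finset.mem_coe, hH, Finset.mem_image]
    refine ⟨l ++ [a⁻¹ * x], ?_, by rw [List.dropLast_concat, hp]⟩
    rw [hL1, Finset.mem_filter, memL]
    refine ⟨⟨?_, ?_⟩, by simp⟩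
    · intro t ht
      rcases List.mem_append.mp ht with h | h
      · exact hl t h
      · rw [List.mem_singleton.mp h]; exact right_ne_zero_of_mul ha
    · rw [List.prod_append, hp, List.prod_singleton, mul_inv_cancel_left]
  refine ⟨H.finite_toSet.subset hsub, ?_⟩
  rw [finsum_eq_sum_of_support_subset _ hsub]
  have e1 : zz y hfin x = ∑ l ∈ L.filter (fun l => ¬ l ≠ []), (l.map y).prod +
      ∑ l ∈ L1, (l.map y).prod := by
    unfold zz
    rw [add_comm]
    exact (Finset.sum_filter_add_sum_filter_not L _ _).symm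
  have e2 : ∑ l ∈ L.filter (fun l => ¬ l ≠ []), (l.map y).prod = mono 1 1 x := by
    unfold mono
    by_cases hx : x = 1
    · have : L.filter (fun l => ¬ l ≠ []) = {[]} := by
        ext l
        rw [Finset.mem_filter, memL, Finset.mem_singleton, not_not]
        constructor
        · exact fun h => h.2
        · rintro rfl
          simp [hx]
      rw [this, if_pos hx, Finset.sum_singleton]
      simp
    · have : L.filter (fun l => ¬ l ≠ []) = ∅ := by
        ext l
        rw [Finset.mem_filter, memL, not_not]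
        constructor
        · rintro ⟨h, rfl⟩
          exact absurd h.2.symm hx
        · intro h
          exact absurd h (Finset.notMem_empty _)
      rw [this, if_neg hx, Finset.sum_empty]
  rw [e1, e2]
  congr 1
  rw [← Finset.sum_fiberwise_of_maps_to (s := L1) (t := H) (g := fun l => l.dropLast.prod)
    (fun l hl => Finset.mem_image_of_mem _ hl)]
  apply Finset.sum_congr rfl
  intro a ha
  have hlast : ∀ l ∈ L1, l.dropLast.prod = a → ∃ l', l = l' ++ [a⁻¹ * x] ∧ l'.prod = a := by
    intro l hl h
    rw [hL1, Finset.mem_filter, memL] at hl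
    obtain ⟨l', b, rfl⟩ : ∃ l' b, l = l' ++ [b] :=
      ⟨l.dropLast, l.getLast hl.2, (List.dropLast_append_getLast hl.2).symm⟩
    rw [List.dropLast_concat] at h
    have h2 := hl.1.2
    rw [List.prod_append, h, List.prod_singleton] at h2
    refine ⟨l', ?_, h⟩
    rw [← h2, inv_mul_cancel_left]
  have hya : y (a⁻¹ * x) ≠ 0 := by
    rw [hH, Finset.mem_image] at ha
    obtain ⟨l, hl, hla⟩ := ha
    obtain ⟨l', rfl, -⟩ := hlast l hl hla
    rw [hL1, Finset.mem_filter, memL] at hl
    exact hl.1.1 _ (by simp)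
  unfold zz
  rw [Finset.sum_mul]
  refine Finset.sum_nbij' (fun l => l.dropLast) (fun l => l ++ [a⁻¹ * x]) ?_ ?_ ?_ ?_ ?_
  · intro l hl
    rw [Finset.mem_filter] at hl
    obtain ⟨l', rfl, hp⟩ := hlast l hl.1 hl.2
    have h := hl.1
    rw [hL1, Finset.mem_filter, memL] at h
    rw [Set.Finite.mem_toFinset, List.dropLast_concat]
    exact ⟨fun t ht => h.1.1 t (List.mem_append_left _ ht), hp⟩
  · intro l hl
    rw [Set.Finite.mem_toFinset] at hl
    rw [Finset.mem_filter, hL1, Finset.mem_filter, memL]
    refine ⟨⟨⟨?_, ?_⟩, by simp⟩, by rw [List.dropLast_concat]; exact hl.2⟩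
    · intro t ht
      rcases List.mem_append.mp ht with h | h
      · exact hl.1 t h
      · rw [List.mem_singleton.mp h]; exact hya
    · rw [List.prod_append, hl.2, List.prod_singleton, mul_inv_cancel_left]
  · intro l hl
    rw [Finset.mem_filter] at hl
    obtain ⟨l', rfl, hp⟩ := hlast l hl.1 hl.2
    rw [List.dropLast_concat]
  · intro l hl
    exact List.dropLast_concat
  · intro l hl
    rw [Finset.mem_filter] at hl
    obtain ⟨l', rfl, hp⟩ := hlast l hl.1 hl.2
    rw [List.dropLast_concat, List.map_append, List.prod_append]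
    simp

end

theorem geo {G : Type u} [Group G] [LinearOrder G] [MulLeftStrictMono G] [MulRightStrictMono G]
    (hNEU : ∀ {S : Set G}, S.IsPWO → (∀ x ∈ S, 1 < x) →
      {x : G | ∃ l : List G, (∀ z ∈ l, z ∈ S) ∧ l.prod = x}.IsPWO ∧
      ∀ x : G, {l : List G | (∀ z ∈ l, z ∈ S) ∧ l.prod = x}.Finite)
    {y : G → ℚ} (hy : (Function.support y).IsPWO) (h1 : ∀ x, y x ≠ 0 → 1 < x) :
    ∃ z : G → ℚ, (∀ x, z x ≠ 0 → ∃ l : List G, (∀ t ∈ l, y t ≠ 0) ∧ l.prod = x) ∧
      conv (fun x => mono 1 1 x - y x) z = mono 1 1 ∧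
      conv z (fun x => mono 1 1 x - y x) = mono 1 1 := by
  have hfin : ∀ x : G, {l : List G | (∀ t ∈ l, y t ≠ 0) ∧ l.prod = x}.Finite :=
    (hNEU hy h1).2
  refine ⟨zz y hfin, fun x hx => zz_ne y hfin hx, ?_, ?_⟩
  · funext x
    obtain ⟨hf, he⟩ := left_eq y hfin x
    unfold conv
    have e : ∀ a : G, (mono 1 1 a - y a) * zz y hfin (a⁻¹ * x) =
        mono 1 1 a * zz y hfin (a⁻¹ * x) - y a * zz y hfin (a⁻¹ * x) := fun a => by ring
    simp only [e]
    have hs : (Function.support fun a : G => (mono 1 1 a : ℚ) * zz y hfin (a⁻¹ * x)) ⊆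
        (({1} : Finset G) : Set G) := by
      intro a ha
      rw [Function.mem_support] at ha
      have := left_ne_zero_of_mul ha
      unfold mono at this
      by_contra hne
      rw [Finset.coe_singleton, Set.mem_singleton_iff] at hne
      exact this (if_neg hne)
    rw [finsum_sub_distrib ((Finset.finite_toSet _).subset hs) hf,
      finsum_eq_sum_of_support_subset _ hs, Finset.sum_singleton]
    have m1 : (mono (1 : G) (1 : ℚ) 1) = 1 := if_pos rfl
    rw [m1, inv_one, one_mul, one_mul]
    linarith
  · funext x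
    obtain ⟨hf, he⟩ := right_eq y hfin x
    unfold conv
    have e : ∀ a : G, zz y hfin a * (mono 1 1 (a⁻¹ * x) - y (a⁻¹ * x)) =
        zz y hfin a * mono 1 1 (a⁻¹ * x) - zz y hfin a * y (a⁻¹ * x) := fun a => by ring
    simp only [e]
    have hs : (Function.support fun a : G => zz y hfin a * (mono 1 1 (a⁻¹ * x) : ℚ)) ⊆
        (({x} : Finset G) : Set G) := by
      intro a ha
      rw [Function.mem_support] at ha
      have := right_ne_zero_of_mul ha
      unfold mono at this
      by_contra hne
      rw [Finset.coe_singleton, Set.mem_singleton_iff] at hne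
      apply this
      apply if_neg
      intro h
      exact hne (inv_mul_eq_one.mp h)
    rw [finsum_sub_distrib ((Finset.finite_toSet _).subset hs) hf,
      finsum_eq_sum_of_support_subset _ hs, Finset.sum_singleton]
    have m1 : (mono (1 : G) (1 : ℚ) (x⁻¹ * x)) = 1 := if_pos (inv_mul_cancel x)
    rw [m1, mul_one]
    linarith

end Pool.Agent.Helper49.PC
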